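import Pool.Agent.ASD.Final

/-!
# Asymptotic dimension at least two without commuting subgroups

Let `G` be a finitely generated group and `N` a finitely generated subgroup. If `N` commensurates a
finitely generated infinite subgroup of infinite index, or if `G` has subexponential growth and `N`
is not virtually cyclic and has a nontrivial homomorphism to the integers, then the asymptotic
dimension of `G` is at least two.
-/

set_option autoImplicit false

universe u

open Pool.Agent.ASD in
theorem Pool.Agent.Results.MP_31d3e9_al.CommensuratedSubgroup.result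
    (G : Type u) [Group G] (S : Finset G) (_ : Subgroup.closure (S : Set G) = ⊤)
    (N : Subgroup G) (_ : N.FG)
    (_ : (∃ K : Subgroup G, K.FG ∧ K ≤ N ∧ N ≤ Subgroup.Commensurable.commensurator K ∧
        K.relIndex N = 0 ∧ (K : Set G).Infinite) ∨
      (SubexpGrowth S ∧ (∃ f : N →* Multiplicative ℤ, f ≠ 1) ∧
        ∀ z ∈ N, (Subgroup.zpowers z).relIndex N = 0)) :
    ¬ AsdimLE S 1 := by
  rename_i hS hN h
  rcases h with ⟨K, h1, h2, h3, h4, h5⟩ | ⟨h1, ⟨f, h2⟩, h3⟩
  · exact not_asdim_one hS K N h1 hN h2 h3 h4 h5
  · exact growth_not_asdim_one hS h1 N hN f h2 h3
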