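import Pool.Agent.Asd3.GH

/-!
# The asymptotic dimension bounds the real homological dimension of amenable subgroups

Let `G` be a finitely generated group of asymptotic dimension at most `n` and `H` a subgroup, not
necessarily finitely generated. If `G` has subexponential growth, or if `H` is amenable, then the
homology of `H` with coefficients in every real representation vanishes in all degrees above `n`.
-/

set_option autoImplicit false

open Pool.Agent.ASD Pool.Agent.Asd3 in
theorem Pool.Agent.Results.MP_31d3e9_al.HomologicalDimension.result
    (G : Type) [Group G] (S : Finset G) (_ : Subgroup.closure (S : Set G) = ⊤)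
    (n : ℕ) (_ : AsdimLE S n) (H : Subgroup G) (_ : SubexpGrowth S ∨ Amen H)
    (V : Rep.{0} ℝ H) (k : ℕ) (_ : n < k) :
    CategoryTheory.Limits.IsZero (groupHomology V k) := by
  rename_i hS hn h hk
  exact hd_le G S hS n hn H h V k hk
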