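import Pool.Agent.Asd3.Final
import Pool.Agent.Asd3.EX
import Pool.Agent.Asd3.LIN
import Pool.Agent.Asd3.LO

/-!
# Locally indicable and left orderable groups of intermediate growth: dimension at least three

Let `G` be a finitely generated group of asymptotic dimension at most two. Every finitely generated
subgroup of subexponential growth which is locally indicable or left orderable has at most
quadratic growth. So a left orderable group of intermediate growth has asymptotic dimension at
least three.
-/

set_option autoImplicit false

open Pool.Agent.ASD Pool.Agent.Asd3 in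
theorem Pool.Agent.Results.MP_31d3e9_al.QuadraticGrowth.result
    (G : Type) [Group G] (S : Finset G) (_ : Subgroup.closure (S : Set G) = ⊤)
    (_ : AsdimLE S 2) (H : Subgroup G) (T : Finset H)
    (_ : Subgroup.closure (T : Set H) = ⊤) (_ : SubexpGrowth T) (_ : LocInd H ∨ LeftOrd H) :
    ∃ C : ℕ, ∀ r : ℕ, Set.ncard {h : H | Bl T r h} ≤ C * (r + 1) ^ 2 := by
  rename_i hS h2 hT hg h
  have hLI : LocInd H := by
    rcases h with h | h
    · exact h
    · exact p_LO H T hT hg h
  exact quad (p_EX p_UNI p_LIN) H T hT hg (asdim_sub S hS 2 h2 H T hT) hLI
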